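import Pool.Agent.Helper75.FU.StP

set_option autoImplicit false

namespace Pool.Agent.Helper84.FU

open Polynomial Pool.Agent.Helper75.FU

universe u

theorem unit_monic (C : Type u) [CommRing C] (s : C[X]) (hs : s.Monic) :
    IsUnit (toRX C s) :=
  IsLocalization.map_units (RX C) (⟨s, hs⟩ : monS C)

theorem inj_toRX (C : Type u) [CommRing C] : Function.Injective (toRX C) := by
  apply IsLocalization.injective (RX C) (M := monS C)
  intro s hs
  have h : s.Monic := hs
  exact h.mem_nonZeroDivisors

theorem sg_zero (C : Type u) [CommRing C] [Nontrivial C] (a b : ℕ) : (0 : RX C) ∈ Sg C a b := by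
  refine ⟨0, X ^ a, monic_X_pow a, ?_, ?_⟩
  · rw [natDegree_zero, natDegree_X_pow]; omega
  · rw [zero_mul, map_zero]

theorem hP1 : StP1.{u} := by
  intro C _ _
  obtain ⟨y, hy⟩ : ∃ y : RX C, y * toRX C X = 1 := by
    have h := unit_monic C X monic_X
    obtain ⟨w, hw⟩ := h.exists_left_inv
    exact ⟨w, hw⟩
  refine ⟨y, hy, sg_zero C, ?_, ?_, ?_, ?_, ?_, ?_, ?_, ?_, ?_, inj_toRX C⟩
  · rintro a b x ⟨p, s, hs, hd, hx⟩ x' ⟨p', s', hs', hd', hx'⟩
    refine ⟨p * s' + p' * s, s * s', hs.mul hs', ?_, ?_⟩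
    · rw [hs.natDegree_mul hs']
      have h1 := natDegree_add_le (p * s') (p' * s)
      have h2 := natDegree_mul_le (p := p) (q := s')
      have h3 := natDegree_mul_le (p := p') (q := s)
      rcases max_choice (p * s').natDegree (p' * s).natDegree with h | h <;> rw [h] at h1 <;> omega
    · rw [map_add, map_mul, map_mul, map_mul, ← hx, ← hx']
      ring
  · rintro a b x ⟨p, s, hs, hd, hx⟩
    refine ⟨-p, s, hs, ?_, ?_⟩
    · rw [natDegree_neg]; exact hd
    · rw [map_neg, ← hx]; ring
  · rintro a b a' b' x ⟨p, s, hs, hd, hx⟩ x' ⟨p', s', hs', hd', hx'⟩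
    refine ⟨p * p', s * s', hs.mul hs', ?_, ?_⟩
    · rw [hs.natDegree_mul hs']
      have h2 := natDegree_mul_le (p := p) (q := p')
      omega
    · rw [map_mul, map_mul, ← hx, ← hx']
      ring
  · rintro a b a' b' hab x ⟨p, s, hs, hd, hx⟩
    exact ⟨p, s, hs, by omega, hx⟩
  · intro c
    refine ⟨Polynomial.C c, 1, monic_one, ?_, ?_⟩
    · rw [natDegree_C, natDegree_one]
    · rw [map_one, mul_one]
  · intro x
    obtain ⟨⟨p, s⟩, h⟩ := IsLocalization.surj (monS C) x
    exact ⟨p.natDegree, p, s.1, s.2, by omega, h⟩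
  · intro x
    obtain ⟨⟨p, s⟩, h⟩ := IsLocalization.surj (monS C) x
    have hs : (s : C[X]).Monic := s.2
    have hx : x * toRX C (s : C[X]) = toRX C p := h
    have hz : (x - toRX C (p /ₘ (s : C[X]))) * toRX C (s : C[X]) = toRX C (p %ₘ (s : C[X])) := by
      have h1 := congrArg (toRX C) (modByMonic_add_div p (s : C[X]))
      rw [map_add, map_mul] at h1
      rw [sub_mul, hx, ← h1]
      ring
    refine ⟨p /ₘ (s : C[X]), x - toRX C (p /ₘ (s : C[X])), ?_, by ring⟩
    by_cases h1 : (s : C[X]) = 1
    · have h0 : x - toRX C (p /ₘ (s : C[X])) = 0 := by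
        have h2 : p %ₘ (s : C[X]) = 0 := by rw [h1, modByMonic_one]
        rw [h2, map_zero] at hz
        exact (unit_monic C _ hs).mul_left_eq_zero.1 hz
      rw [h0]
      exact sg_zero C 1 0
    · refine ⟨p %ₘ (s : C[X]), s, hs, ?_, hz⟩
      have := natDegree_modByMonic_lt p hs h1
      omega
  · rintro j x ⟨p, s, hs, hd, hx⟩
    refine ⟨p.coeff (s.natDegree - j), ?_⟩
    set c := p.coeff (s.natDegree - j) with hc
    have hXj : y ^ j * toRX C (X ^ j) = 1 := by
      rw [map_pow, ← mul_pow, hy, one_pow]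
    have hz : (x - toRX C (Polynomial.C c) * y ^ j) * toRX C (s * X ^ j)
        = toRX C (p * X ^ j - Polynomial.C c * s) := by
      rw [map_mul, map_sub, map_mul, map_mul, ← hx]
      calc (x - toRX C (Polynomial.C c) * y ^ j) * (toRX C s * toRX C (X ^ j))
          = x * toRX C s * toRX C (X ^ j)
            - toRX C (Polynomial.C c) * toRX C s * (y ^ j * toRX C (X ^ j)) := by ring
        _ = _ := by rw [hXj, mul_one]
    have hms : (s * X ^ j).Monic := hs.mul (monic_X_pow j)
    have hdeg : (s * X ^ j).natDegree = s.natDegree + j := by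
      rw [hs.natDegree_mul (monic_X_pow j), natDegree_X_pow]
    have hle : (p * X ^ j - Polynomial.C c * s).natDegree ≤ s.natDegree := by
      have h1 := natDegree_sub_le (p * X ^ j) (Polynomial.C c * s)
      have h2 := natDegree_mul_le (p := p) (q := (X : C[X]) ^ j)
      have h3 := natDegree_C_mul_le c s
      rw [natDegree_X_pow] at h2
      rcases max_choice (p * X ^ j).natDegree (Polynomial.C c * s).natDegree with h | h <;>
        rw [h] at h1 <;> omega
    have hco : (p * X ^ j - Polynomial.C c * s).coeff s.natDegree = 0 := by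
      rw [coeff_sub, coeff_C_mul, hs.coeff_natDegree, mul_one, coeff_mul_X_pow', if_pos (by omega),
        hc, sub_self]
    by_cases h0 : p * X ^ j - Polynomial.C c * s = 0
    · have h1 : x - toRX C (Polynomial.C c) * y ^ j = 0 := by
        rw [h0, map_zero] at hz
        exact (unit_monic C _ hms).mul_left_eq_zero.1 hz
      rw [h1]
      exact sg_zero C (j + 1) 0
    · refine ⟨_, _, hms, ?_, hz⟩
      have hne : (p * X ^ j - Polynomial.C c * s).natDegree ≠ s.natDegree := by
        intro h
        apply h0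
        rw [← leadingCoeff_eq_zero, leadingCoeff, h, hco]
      omega
  · rintro q ⟨p, s, hs, hd, hx⟩
    by_cases h0 : q = 0
    · exact ⟨0, by rw [h0, map_zero]⟩
    rw [← map_mul] at hx
    have h1 := inj_toRX C hx
    have h2 := hs.natDegree_mul' h0
    rw [mul_comm, h1] at h2
    refine ⟨q.coeff 0, eq_C_of_natDegree_le_zero (by omega)⟩

end Pool.Agent.Helper84.FU
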